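import Pool.Agent.GS.Main

/-!
# Vanishing almost-principal minors of positive definite 5 x 5 matrices

A set `S` of symbols `[i ⊥ j | K]` over `{1, ..., 5}` is the set of all almost-principal minors
vanishing at some positive definite real symmetric `5 x 5` matrix if and only if `S` has an
orientation and no relabelled or dual copy of `S` violates one of the 2240 inference rules listed
in `Pool.Agent.GS.Rules`. The other definitions are in `Pool.Agent.GS.Defs`.

Proof: the inference rules hold for all positive definite matrices by certificates which use the
three-term relations between 142 minors; conversely a search tree over all sets of symbols, checked
by the kernel modulo relabelling and duality, ends in 82383 sets with explicit positive definite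
matrices (82217 with integer entries, 166 with algebraic entries).
-/

namespace Pool.Agent.Results.MP_618fa1_co.Classification

open Pool.Agent.GS

/-- **MP_618fa1_co, Q1**: the family of the sets of vanishing almost-principal minors of positive
definite real 5 x 5 matrices. -/
theorem result : ∀ S : SymSet, Representable S ↔
    (IsSymSet S ∧ Orientable S ∧ ∀ (π : Equiv.Perm (Fin 5)) (d : Bool), ¬ Violates (img π d S)) :=
  classification

end Pool.Agent.Results.MP_618fa1_co.Classification
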